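import Pool.Agent.Y990.OA.Stm

/-! Disjoint sets in a box. -/

set_option autoImplicit false
set_option maxHeartbeats 1000000

open Set

namespace Pool.Agent.Y784.OA

open Pool.Agent.Y990.CB Pool.Agent.Y990.OA

variable {d : ℕ}

open scoped Classical in
/-- the vertices of the box whose `k`-neighbourhoods meet `X` -/
noncomputable def UX (k r : ℕ) (X : Set (Z d)) : Finset (Z d) :=
  (Bf 0 r).filter (fun z => (X ∩ Bo z k).Nonempty)

lemma mem_UX {k r : ℕ} {X : Set (Z d)} {z : Z d} :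
    z ∈ UX k r X ↔ z ∈ Bf (0 : Z d) r ∧ (X ∩ Bo z k).Nonempty := by
  classical
  unfold UX
  rw [Finset.mem_filter]

lemma card_le_UX (k r : ℕ) (X : Set (Z d)) : (X ∩ Bo 0 r).ncard ≤ (UX k r X).card := by
  rw [← Set.ncard_coe_finset]
  refine Set.ncard_le_ncard ?_ (Finset.finite_toSet _)
  rintro x ⟨hx, hxr⟩
  rw [Finset.mem_coe, mem_UX, mem_Bf]
  exact ⟨hxr, x, hx, self_mem_Bo x k⟩

open scoped Classical in
lemma card_meet {F : Finset (Set (Z d))} (hF : ∀ X ∈ F, ∀ Y ∈ F, X ≠ Y → Disjoint X Y)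
    (z : Z d) (L : ℕ) : (F.filter (fun X => (X ∩ Bo z L).Nonempty)).card ≤ (2 * L + 1) ^ d := by
  rw [← card_Bf z L]
  refine Finset.card_le_card_of_injOn
    (fun X => if h : (X ∩ Bo z L).Nonempty then h.some else z) ?_ ?_
  · intro X hX
    have h := (Finset.mem_filter.1 hX).2
    simp only [dif_pos h]
    exact mem_Bf.2 h.some_mem.2
  · intro X hX Y hY hXY
    have h1 := Finset.mem_filter.1 hX
    have h2 := Finset.mem_filter.1 hY
    simp only [dif_pos h1.2, dif_pos h2.2] at hXY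
    by_contra hne
    have h3 := hF X h1.1 Y h2.1 hne
    exact Set.disjoint_left.1 h3 h1.2.some_mem.1 (hXY ▸ h2.2.some_mem.1)

lemma meet_succ {X : Set (Z d)} {z z' : Z d} {k : ℕ} (h : (X ∩ Bo z' k).Nonempty)
    (hn : Nb z' z) : (X ∩ Bo z (k + 1)).Nonempty := by
  obtain ⟨x, hx, hx'⟩ := h
  refine ⟨x, hx, ?_⟩
  have h1 : z' ∈ Bo z 1 := fun i => by
    have := Nb_coord hn i
    exact_mod_cast this
  exact Bo_sub h1 (le_refl (k + 1)) hx'

open scoped Classical in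
lemma mem_Kc {k r : ℕ} {F : Finset (Set (Z d))} {z : Z d} (hz : z ∈ Bf (0 : Z d) r)
    {X Y : Set (Z d)} (hX : X ∈ F) (hY : Y ∈ F) (hne : X ≠ Y)
    (h1 : (X ∩ Bo z (k + 1)).Nonempty) (h2 : (Y ∩ Bo z (k + 1)).Nonempty) : z ∈ Kc k r F := by
  unfold Kc
  rw [Finset.mem_filter]
  exact ⟨hz, X, hX, Y, hY, hne, h1, h2⟩

lemma Kc_sub (k r : ℕ) (F : Finset (Set (Z d))) : Kc k r F ⊆ Bf 0 r := by
  classical
  unfold Kc
  exact Finset.filter_subset _ _

lemma Hc_sub (k r : ℕ) (F : Finset (Set (Z d))) : Hc k r F ⊆ Bf 0 r := by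
  classical
  unfold Hc
  exact Finset.filter_subset _ _

lemma mem_Bd {r : ℕ} {U : Finset (Z d)} {z : Z d} :
    z ∈ Bd r U ↔ z ∈ Bf (0 : Z d) r ∧ z ∉ U ∧ ∃ z' ∈ U, Nb z' z := by
  classical
  unfold Bd
  rw [Finset.mem_filter]

lemma meet_mono {X : Set (Z d)} {z : Z d} {k : ℕ} (h : (X ∩ Bo z k).Nonempty) :
    (X ∩ Bo z (k + 1)).Nonempty :=
  h.mono (inter_subset_inter_right _ (Bo_mono z (Nat.le_succ k)))

open scoped Classical in
lemma sum_card_swap (F : Finset (Set (Z d))) (Q : Finset (Z d)) (W : Set (Z d) → Finset (Z d))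
    (hW : ∀ X ∈ F, W X ⊆ Q) :
    ∑ X ∈ F, (W X).card = ∑ z ∈ Q, (F.filter (fun X => z ∈ W X)).card := by
  simp_rw [Finset.card_filter]
  rw [Finset.sum_comm]
  refine Finset.sum_congr rfl fun X hX => ?_
  rw [← Finset.card_filter]
  congr 1
  ext z
  rw [Finset.mem_filter]
  exact ⟨fun h => ⟨hW X hX h, h⟩, fun h => h.2⟩

open scoped Classical in
lemma sum_ite_card (Q A : Finset (Z d)) (hA : A ⊆ Q) (b : ℕ) :
    ∑ z ∈ Q, (if z ∈ A then b else 0) = b * A.card := by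
  rw [Finset.sum_ite_mem, Finset.inter_eq_right.2 hA, Finset.sum_const, smul_eq_mul, mul_comm]

open scoped Classical in
lemma sum_Bd {F : Finset (Set (Z d))} (hF : ∀ X ∈ F, ∀ Y ∈ F, X ≠ Y → Disjoint X Y)
    (k r : ℕ) : ∑ X ∈ F, (Bd r (UX k r X)).card ≤
      (2 * k + 3) ^ d * (Kc k r F).card + (Hc k r F).card := by
  rw [sum_card_swap F (Bf 0 r) (fun X => Bd r (UX k r X)) (fun X _ z hz => (mem_Bd.1 hz).1)]
  have h1 : ∀ z ∈ Bf (0 : Z d) r, (F.filter (fun X => z ∈ Bd r (UX k r X))).card ≤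
      (if z ∈ Kc k r F then (2 * k + 3) ^ d else 0) + (if z ∈ Hc k r F then 1 else 0) := by
    intro z hz
    have hmeet : ∀ X : Set (Z d), z ∈ Bd r (UX k r X) → (X ∩ Bo z (k + 1)).Nonempty := by
      intro X hX
      obtain ⟨-, -, z', hz', hn⟩ := mem_Bd.1 hX
      exact meet_succ (mem_UX.1 hz').2 hn
    by_cases hK : z ∈ Kc k r F
    · rw [if_pos hK]
      refine le_trans ?_ (Nat.le_add_right _ _)
      refine le_trans (Finset.card_le_card ?_) (card_meet hF z (k + 1))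
      intro X hX
      rw [Finset.mem_filter] at hX ⊢
      exact ⟨hX.1, hmeet X hX.2⟩
    · rw [if_neg hK, zero_add]
      rcases (F.filter (fun X => z ∈ Bd r (UX k r X))).eq_empty_or_nonempty with he | ⟨X, hX⟩
      · rw [he, Finset.card_empty]
        exact Nat.zero_le _
      · rw [Finset.mem_filter] at hX
        have hH : z ∈ Hc k r F := by
          unfold Hc
          rw [Finset.mem_filter]
          refine ⟨hz, fun Y hY hne => ?_⟩
          by_cases hXY : X = Y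
          · have h3 := (mem_Bd.1 hX.2).2.1
            rw [hXY] at h3
            exact h3 (mem_UX.2 ⟨hz, hne⟩)
          · exact hK (mem_Kc hz hX.1 hY hXY (hmeet X hX.2) (meet_mono hne))
        rw [if_pos hH]
        rw [Finset.card_le_one]
        intro Y hY W hW
        rw [Finset.mem_filter] at hY hW
        by_contra hne
        exact hK (mem_Kc hz hY.1 hW.1 hne (hmeet Y hY.2) (hmeet W hW.2))
  refine (Finset.sum_le_sum h1).trans ?_
  rw [Finset.sum_add_distrib, sum_ite_card _ _ (Kc_sub k r F), sum_ite_card _ _ (Hc_sub k r F),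
    one_mul]

open scoped Classical in
lemma sum_UX {F : Finset (Set (Z d))} (hF : ∀ X ∈ F, ∀ Y ∈ F, X ≠ Y → Disjoint X Y)
    (k r : ℕ) : ∑ X ∈ F, (UX k r X).card ≤
      (2 * r + 1) ^ d + (2 * k + 3) ^ d * (Kc k r F).card := by
  rw [sum_card_swap F (Bf 0 r) (fun X => UX k r X) (fun X _ z hz => (mem_UX.1 hz).1)]
  have h1 : ∀ z ∈ Bf (0 : Z d) r, (F.filter (fun X => z ∈ UX k r X)).card ≤
      1 + (if z ∈ Kc k r F then (2 * k + 3) ^ d else 0) := by
    intro z hz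
    by_cases hK : z ∈ Kc k r F
    · rw [if_pos hK]
      refine le_trans ?_ (Nat.le_add_left _ _)
      refine le_trans (Finset.card_le_card ?_) (card_meet hF z (k + 1))
      intro X hX
      rw [Finset.mem_filter] at hX ⊢
      exact ⟨hX.1, meet_mono (mem_UX.1 hX.2).2⟩
    · rw [if_neg hK, add_zero, Finset.card_le_one]
      intro Y hY W hW
      rw [Finset.mem_filter] at hY hW
      by_contra hne
      exact hK (mem_Kc hz hY.1 hW.1 hne (meet_mono (mem_UX.1 hY.2).2)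
        (meet_mono (mem_UX.1 hW.2).2))
  refine (Finset.sum_le_sum h1).trans ?_
  rw [Finset.sum_add_distrib, sum_ite_card _ _ (Kc_sub k r F), Finset.sum_const, smul_eq_mul,
    mul_one, card_Bf]

lemma rpow_card (d N : ℕ) (hd : 1 ≤ d) :
    (((N : ℝ)) ^ d) ^ (((d : ℝ) - 1) / d) = (N : ℝ) ^ (d - 1) := by
  have hd0 : (d : ℝ) ≠ 0 := by
    have : d ≠ 0 := by omega
    exact_mod_cast this
  rw [← Real.rpow_natCast, ← Real.rpow_natCast, ← Real.rpow_mul (by positivity)]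
  congr 1
  rw [Nat.cast_sub hd, Nat.cast_one]
  field_simp

theorem terr (h : S_iso) : S_terr := by
  classical
  intro d hd
  obtain ⟨C₁, κ, hC1, hκ, hiso⟩ := h d hd
  refine ⟨C₁ + κ⁻¹, by have := inv_pos.2 hκ; linarith, fun k r F hF => ?_⟩
  set N : ℕ := 2 * r + 1 with hN
  set b : ℕ := 2 * k + 3 with hb
  set a : ℝ := ((d : ℝ) - 1) / d with ha
  have hd1 : (1 : ℝ) ≤ d := by exact_mod_cast (by omega : 1 ≤ d)
  have ha0 : 0 ≤ a := div_nonneg (by linarith) (by linarith)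
  have hN0 : (0 : ℝ) < N := by
    have : 0 < N := by omega
    exact_mod_cast this
  have hN1 : (1 : ℝ) ≤ N := by exact_mod_cast (by omega : 1 ≤ N)
  have hκ' : 0 < κ⁻¹ := inv_pos.2 hκ
  set big : Finset (Set (Z d)) := F.filter (fun X => κ * (N : ℝ) ^ d < ((UX k r X).card : ℝ))
    with hbig
  -- each term
  have h1 : ∀ X ∈ F, ((X ∩ Bo 0 r).ncard : ℝ) ^ a ≤ C₁ * ((Bd r (UX k r X)).card : ℝ) +
      (if X ∈ big then (N : ℝ) ^ (d - 1) else 0) := by
    intro X hX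
    have h2 : ((X ∩ Bo 0 r).ncard : ℝ) ^ a ≤ ((UX k r X).card : ℝ) ^ a := by
      refine Real.rpow_le_rpow (by positivity) ?_ ha0
      exact_mod_cast card_le_UX k r X
    refine h2.trans ?_
    have hsub : UX k r X ⊆ Bf 0 r := fun z hz => (mem_UX.1 hz).1
    by_cases hB : X ∈ big
    · rw [if_pos hB]
      have h3 : ((UX k r X).card : ℝ) ^ a ≤ ((N : ℝ) ^ d) ^ a := by
        refine Real.rpow_le_rpow (by positivity) ?_ ha0
        have := Finset.card_le_card hsub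
        rw [card_Bf] at this
        exact_mod_cast this
      rw [rpow_card d N (by omega)] at h3
      have : 0 ≤ C₁ * ((Bd r (UX k r X)).card : ℝ) := by positivity
      linarith
    · rw [if_neg hB, add_zero]
      refine hiso r _ hsub ?_
      rw [hbig, Finset.mem_filter, not_and, not_lt] at hB
      exact hB hX
  refine (Finset.sum_le_sum h1).trans ?_
  rw [Finset.sum_add_distrib, ← Finset.mul_sum, Finset.sum_ite_mem,
    Finset.inter_eq_right.2 (Finset.filter_subset _ F), Finset.sum_const, nsmul_eq_mul]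
  have h4 : (∑ X ∈ F, ((Bd r (UX k r X)).card : ℝ)) ≤
      (b : ℝ) ^ d * ((Kc k r F).card : ℝ) + ((Hc k r F).card : ℝ) := by
    exact_mod_cast sum_Bd hF k r
  have h5 : (∑ X ∈ F, ((UX k r X).card : ℝ)) ≤
      (N : ℝ) ^ d + (b : ℝ) ^ d * ((Kc k r F).card : ℝ) := by
    exact_mod_cast sum_UX hF k r
  have h6 : (big.card : ℝ) * (κ * (N : ℝ) ^ d) ≤ ∑ X ∈ F, ((UX k r X).card : ℝ) := by
    calc (big.card : ℝ) * (κ * (N : ℝ) ^ d) = ∑ X ∈ big, κ * (N : ℝ) ^ d := by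
          rw [Finset.sum_const, nsmul_eq_mul]
      _ ≤ ∑ X ∈ big, ((UX k r X).card : ℝ) :=
          Finset.sum_le_sum fun X hX => (Finset.mem_filter.1 hX).2.le
      _ ≤ ∑ X ∈ F, ((UX k r X).card : ℝ) :=
          Finset.sum_le_sum_of_subset_of_nonneg (Finset.filter_subset _ F)
            fun X _ _ => by positivity
  set K : ℝ := ((Kc k r F).card : ℝ) with hK
  set H : ℝ := ((Hc k r F).card : ℝ) with hH
  have hK0 : 0 ≤ K := by positivity
  have hH0 : 0 ≤ H := by positivity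
  have hNd : (N : ℝ) ^ d = (N : ℝ) ^ (d - 1) * N := by
    rw [← pow_succ]
    congr 1
    omega
  have hNp : (0 : ℝ) < (N : ℝ) ^ (d - 1) := by positivity
  have hbK : 0 ≤ (b : ℝ) ^ d * K := by positivity
  have h7 : (big.card : ℝ) * (N : ℝ) ^ (d - 1) ≤
      κ⁻¹ * ((N : ℝ) ^ (d - 1) + (b : ℝ) ^ d * K) := by
    have h8 : ((big.card : ℝ) * (N : ℝ) ^ (d - 1)) * (κ * N) ≤
        (κ⁻¹ * ((N : ℝ) ^ (d - 1) + (b : ℝ) ^ d * K)) * (κ * N) := by
      have e1 : ((big.card : ℝ) * (N : ℝ) ^ (d - 1)) * (κ * N) =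
          (big.card : ℝ) * (κ * (N : ℝ) ^ d) := by rw [hNd]; ring
      have e2 : (κ⁻¹ * ((N : ℝ) ^ (d - 1) + (b : ℝ) ^ d * K)) * (κ * N) =
          (N : ℝ) ^ d + (b : ℝ) ^ d * K * N := by
        rw [hNd]
        field_simp
      rw [e1, e2]
      refine (h6.trans h5).trans ?_
      have : (b : ℝ) ^ d * K * 1 ≤ (b : ℝ) ^ d * K * N := by gcongr
      linarith
    exact le_of_mul_le_mul_right h8 (by positivity)
  have h9 : C₁ * (∑ X ∈ F, ((Bd r (UX k r X)).card : ℝ)) ≤ C₁ * ((b : ℝ) ^ d * K + H) := by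
    gcongr
  have h10 : 0 ≤ κ⁻¹ * H := by positivity
  have h11 : 0 ≤ C₁ * (N : ℝ) ^ (d - 1) := by positivity
  calc _ ≤ C₁ * ((b : ℝ) ^ d * K + H) + κ⁻¹ * ((N : ℝ) ^ (d - 1) + (b : ℝ) ^ d * K) :=
        add_le_add h9 h7
    _ ≤ (C₁ + κ⁻¹) * ((b : ℝ) ^ d * K + H + (N : ℝ) ^ (d - 1)) := by nlinarith

end Pool.Agent.Y784.OA
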